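import Pool.Agent.helper72.UP.Spec

/-!
# Project MC (MP_7e34bc_co, Q2, middle range, part (C)): at most two positive weights

`β` = the negative coordinates, `y = -x > 0` on `β`, `q = #β`. `fam y c m` = the sets with sum `c` and at most `m` elements. `prefixed s` (Mathlib `Numbering.prefixed`) = the orders of `β` that begin with the elements of `s`.

RULES. Row `mc:XX`: file `Pool/Agent/<seat>/MC/XX.lean`, `import Pool.Agent.helper77.MC.Spec`, `set_option autoImplicit false`, `namespace Pool.Agent.helper77.MC`, `open Finset Numbering`, theorem line as in the note (the other rows are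
hypotheses, so all rows are independent); auxiliary lemmas private or with prefix `XX_`. Mathlib only, no straight double quotes, no convert / congr!. A FALSE or awkward statement: one line to helper77 at once.
-/

set_option autoImplicit false

namespace Pool.Agent.helper77.MC

open Finset Numbering

/-- The sets with sum `c` and at most `m` elements. -/
noncomputable def fam {β : Type} [Fintype β] (y : β → ℝ) (c : ℝ) (m : ℕ) : Finset (Finset β) := by
  classical exact {J : Finset β | ∑ i ∈ J, y i = c ∧ #J ≤ m}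

/-- **JC** (medium). `prefixedEquiv t : prefixed t ≃ Numbering t × Numbering tᶜ` (Mathlib, Combinatorics/KatonaCircle). For `s ⊆ t` an order `f` in `prefixed t` is in `prefixed s` iff its restriction to `t` is in
`prefixed (s.subtype (· ∈ t))` (values below `#t` are kept by the restriction). So `#(prefixed s ∩ prefixed t) = #s! (#t - #s)! (q - #t)!`, `#(prefixed t) = #t! (q - #t)!` (`card_prefixed`), and `#s! (#t - #s)! C(#t,#s) = #t!`.
(Other way: the permutations of `β` that map `t` to itself show that the number is the same for all `s ⊆ t` of the same size; every `f` in `prefixed t` is in exactly one `prefixed s` of this size.) -/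
def JC_stmt : Prop := ∀ (β : Type) [Fintype β] [DecidableEq β] (s t : Finset β), s ⊆ t →
  #((prefixed s : Finset (Numbering β)) ∩ prefixed t) * (#t).choose #s = #(prefixed t : Finset (Numbering β))

/-- **SG** (short, from JC). The sets `prefixed s ∩ prefixed t` (`s ∈ A`) are pairwise disjoint (`disjoint_prefixed_prefixed`) subsets of `prefixed t`, and each has `#(prefixed t) / C(#t,#s)` elements; `#(prefixed t) > 0`. -/
def SG_stmt : Prop := ∀ (β : Type) [Fintype β] [DecidableEq β] (t : Finset β) (A : Finset (Finset β)),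
  (∀ s ∈ A, s ⊆ t) → (∀ s ∈ A, ∀ s' ∈ A, s ⊆ s' → s = s') → ∑ s ∈ A, ((#t).choose #s : ℝ)⁻¹ ≤ 1

/-- **ST** (short-medium, from JC). Exchange the sums: `∑ J ∈ A, g #J * #(prefixed J ∩ prefixed t)`. If `prefixed J ∩ prefixed t` is not empty, then `J ⊆ t` or `t ⊆ J` (`disjoint_prefixed_prefixed`), so `J ⊆ t`; then JC. -/
def ST_stmt : Prop := ∀ (β : Type) [Fintype β] [DecidableEq β] (t : Finset β) (A : Finset (Finset β)) (g : ℕ → ℝ), (∀ J ∈ A, ¬ t ⊆ J) →
  ∑ f ∈ (prefixed t : Finset (Numbering β)), ∑ J ∈ A, (if f ∈ prefixed J then g #J else 0) =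
    (#(prefixed t : Finset (Numbering β)) : ℝ) * ∑ J ∈ A.filter (fun J => J ⊆ t), g #J * ((#t).choose #J : ℝ)⁻¹

/-- **FA** (short). `J ⊆ J'` and equal sums of positive weights give `J = J'` (`Finset.sum_lt_sum_of_subset`); `0 < c` gives `J ≠ ∅`. -/
def FA_stmt : Prop := ∀ (β : Type) [Fintype β] (y : β → ℝ) (c d : ℝ) (m l : ℕ), (∀ b, 0 < y b) → 0 < c →
  (∀ J ∈ fam y c m, J.Nonempty ∧ #J ≤ m ∧ ∑ i ∈ J, y i = c) ∧ (∀ J ∈ fam y c m, ∀ J' ∈ fam y c m, J ⊆ J' → J = J') ∧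
    (c < d → ∀ J ∈ fam y c m, ∀ J' ∈ fam y d l, ¬ J' ⊆ J)

/-- **GD** (short, from FA). For one order `f` at most one `J` of `fam y c m` has `f ∈ prefixed J` (two of them would be comparable), so the sum has at most one nonzero term, which is at most `w`. -/
def GD_stmt : Prop := ∀ (β : Type) [Fintype β] [DecidableEq β] (y : β → ℝ) (c : ℝ) (m : ℕ) (w : ℝ) (g : ℕ → ℝ), (∀ b, 0 < y b) → 0 < c → 0 ≤ w → (∀ j ≤ m, g j ≤ w) →
  ∀ f : Numbering β, ∑ J ∈ fam y c m, (if f ∈ prefixed J then g #J else 0) ≤ w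

/-- **BA** (medium, from SG, ST, FA). One set `t` of `fam y (c₁ + c₂) m`, `j = #t ≤ m`. For `f ∈ prefixed t` only `J = t` contributes to the third sum (`g j`). By ST (FA: no `J` of the first two families contains `t`, as `c₁, c₂ < c₁ + c₂`) the first two
sums are `#(prefixed t)` times `∑ g #J / C(j,#J)` over the `J ⊆ t` of `fam y c₁ (m+1)` and of `fam y c₂ (m+1)`. `J ↦ t \ J` is a bijection between these two sets of `J` (`∑ (t \ J) = c₂`, all sizes are at most `j ≤ m`), and `C(j, j - #J) = C(j, #J)`.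
So together: `∑ (g #J + g (j - #J)) / C(j,#J)` over the `J ⊆ t` in `fam y c₁ (m+1)`, `1 ≤ #J ≤ j - 1`; by hypothesis the numerators are at most `2 w - g j`, and the sum of `1 / C(j,#J)` is at most 1 by SG (antichain by FA); `0 ≤ 2 w - g j`. -/
def BA_stmt : Prop := ∀ (β : Type) [Fintype β] [DecidableEq β] (y : β → ℝ) (c₁ c₂ : ℝ) (m : ℕ) (w : ℝ) (g : ℕ → ℝ), (∀ b, 0 < y b) → 0 < c₁ → 0 < c₂ → 0 ≤ w →
  (∀ j ≤ m + 1, g j ≤ w) → (∀ j ≤ m, ∀ a, 1 ≤ a → a + 1 ≤ j → g j + (g a + g (j - a)) ≤ 2 * w) →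
  ∀ t ∈ fam y (c₁ + c₂) m,
    ∑ f ∈ (prefixed t : Finset (Numbering β)), ((∑ J ∈ fam y c₁ (m + 1), (if f ∈ prefixed J then g #J else 0)) +
      (∑ J ∈ fam y c₂ (m + 1), (if f ∈ prefixed J then g #J else 0)) + ∑ J ∈ fam y (c₁ + c₂) m, (if f ∈ prefixed J then g #J else 0)) ≤
    2 * w * (#(prefixed t : Finset (Numbering β)) : ℝ)

/-- **P2** (medium, from FA, GD, BA). `g j = C(q,j)`, `q = #β`. `F(f)` = the sum of the three inner sums. `∑ f, F(f) = q! (a₁ + a₂ + a₃)` (exchange; `#(prefixed J) * C(q,#J) = q!` by `card_prefixed`, `Nat.choose_mul_factorial_mul_factorial`, `#J ≤ q`).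
The sets `prefixed t` (`t` in `fam y (c₁ + c₂) m`) are pairwise disjoint (`disjoint_prefixed_prefixed`, FA); on their union `H` the sum of `F` is at most `2 w #H` by BA. Outside `H` the third sum is 0 and the first two are at most `w` each by GD
(`f ∈ prefixed t` for no `t`). So `q! (a₁ + a₂ + a₃) ≤ 2 w q!` (`Fintype.card_numbering`). -/
def P2_stmt : Prop := ∀ (β : Type) [Fintype β] (y : β → ℝ) (c₁ c₂ : ℝ) (m : ℕ) (w : ℝ), (∀ b, 0 < y b) → 0 < c₁ → 0 < c₂ → 0 ≤ w →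
  (∀ j ≤ m + 1, ((Fintype.card β).choose j : ℝ) ≤ w) →
  (∀ j ≤ m, ∀ a, 1 ≤ a → a + 1 ≤ j → ((Fintype.card β).choose j : ℝ) + (((Fintype.card β).choose a : ℝ) + ((Fintype.card β).choose (j - a) : ℝ)) ≤ 2 * w) →
  ((#(fam y c₁ (m + 1)) : ℝ) + #(fam y c₂ (m + 1)) + #(fam y (c₁ + c₂) m)) ≤ 2 * w

/-- **P1** (short, from FA). LYM (`Finset.lubell_yamamoto_meshalkin_inequality_sum_inv_choose`): `1 ≥ ∑ 1 / C(q,#J) ≥ #fam / w` (if the family is not empty, `w > 0`). -/
def P1_stmt : Prop := ∀ (β : Type) [Fintype β] (y : β → ℝ) (c : ℝ) (m : ℕ) (w : ℝ), (∀ b, 0 < y b) → 0 < c → 0 ≤ w →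
  (∀ j ≤ m, ((Fintype.card β).choose j : ℝ) ≤ w) → (#(fam y c m) : ℝ) ≤ w

open Pool.Agent.helper72.UP in
/-- **S1** (short-medium). `β = {i // x i < 0}`, `y i = - x i`. Every set counted by `zer x k` contains `u` (otherwise its sum is negative; it is not empty), and `s ↦ s.subtype (x · < 0)` is an injection to `fam y (x u) (k-1)`: `s = {u} ∪` the image. -/
def S1_stmt : Prop := ∀ (n k : ℕ) (x : Fin n → ℝ) (u : Fin n), (∀ i, x i ≠ 0) → (∀ i, 0 < x i ↔ i = u) →
  zer x k ≤ #(fam (fun i : {i : Fin n // x i < 0} => - x i.1) (x u) (k - 1))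

open Pool.Agent.helper72.UP in
/-- **S2** (medium). As S1. The sets counted by `zer x k` contain `u` or `v`; three classes: `u` only, `v` only, both; each class is mapped injectively by `s ↦ s.subtype (x · < 0)` to the family on the right. (`k - 1`, `k - 2`: the set has at least one or two elements.) -/
def S2_stmt : Prop := ∀ (n k : ℕ) (x : Fin n → ℝ) (u v : Fin n), (∀ i, x i ≠ 0) → u ≠ v → (∀ i, 0 < x i ↔ i = u ∨ i = v) →
  zer x k ≤ #(fam (fun i : {i : Fin n // x i < 0} => - x i.1) (x u) (k - 1)) + #(fam (fun i : {i : Fin n // x i < 0} => - x i.1) (x v) (k - 1)) +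
    #(fam (fun i : {i : Fin n // x i < 0} => - x i.1) (x u + x v) (k - 2))

/-- **CR** (short). `C(q,j) (q - j) = C(q,j+1) (j+1)` (`Nat.choose_succ_right_eq`) and `j + 1 ≤ r (q - j)`; induction on `d`. -/
def CR_stmt : Prop := ∀ (q k : ℕ) (r : ℝ), 0 < r → r ≤ 1 → k ≤ q → (k : ℝ) ≤ r * ((q : ℝ) + 1 - k) →
  ∀ j d : ℕ, j + d ≤ k → (q.choose j : ℝ) ≤ r ^ d * (q.choose (j + d) : ℝ)

/-- **AN** (medium, from CR). `q = n - 2`, `w = C(q,k-1)`. `r = (1/2 - ε)/(1/2 + ε) < 1` (wlog `ε < 1/2`; otherwise there is no such `k` for `n ≥ 1`), `k - 1 ≤ r (q + 1 - (k - 1)) = r (n - k)`, so CR for `q`, `k - 1`. First: `C(q,j) ≤ r^(k-1-j) w ≤ w`. Second: `C(q,j) ≤ r w`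
as `j ≤ k - 2`; the larger of `a`, `j - a` is at most `j - 1 ≤ k - 3`: at most `r^2 w`; the smaller one is at most `j/2 ≤ (k-2)/2`, so at distance at least `k/2` from `k - 1`: at most `r^(k/2) w` (natural number division). Choose `n₀` with `r + r^2 + r^(n₀/6 - 1) ≤ 2`
(`r + r^2 < 2`, `tendsto_pow_atTop_nhds_zero_of_lt_one`; `k/2 ≥ n/6 - 1`). Third: `C(n-1,j) ≤ C(n-1,k-1) = C(q,k-1) + C(q,k-2) ≤ 2 w` (`j ≤ k - 1 ≤ (n-1)/2`). -/
def AN_stmt : Prop := ∀ ε : ℝ, 0 < ε → ∃ n₀ : ℕ, 6 ≤ n₀ ∧ ∀ n k : ℕ, n₀ ≤ n → (n : ℝ) / 3 ≤ k → (k : ℝ) ≤ (1 / 2 - ε) * n →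
  (∀ j ≤ k - 1, ((n - 2).choose j : ℝ) ≤ (n - 2).choose (k - 1)) ∧
  (∀ j ≤ k - 2, ∀ a, 1 ≤ a → a + 1 ≤ j → ((n - 2).choose j : ℝ) + (((n - 2).choose a : ℝ) + ((n - 2).choose (j - a) : ℝ)) ≤ 2 * ((n - 2).choose (k - 1) : ℝ)) ∧
  (∀ j ≤ k - 1, ((n - 1).choose j : ℝ) ≤ 2 * ((n - 2).choose (k - 1) : ℝ))

open Pool.Agent.helper72.UP in
/-- **CC** (short-medium, from P1, P2, S1, S2, AN). `p = #{i | 0 < x i}`. `p = 0`: `zer x k = 0` (a nonempty sum of negative numbers). `p = 1`: S1, P1 with `w = 2 C(n-2,k-1)`, `#β = n - 1`. `p = 2`: S2, P2 with `m = k - 2` (`k ≥ 2` as `n ≥ 6`, `k ≥ n/3`), `w = C(n-2,k-1)`,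
`#β = n - 2` (the negative coordinates are the complement of the positive ones; `Fintype.card_subtype`). -/
def CC_stmt : Prop := ∀ ε : ℝ, 0 < ε → ∃ n₀ : ℕ, ∀ (n k : ℕ) (x : Fin n → ℝ), n₀ ≤ n → (n : ℝ) / 3 ≤ k → (k : ℝ) ≤ (1 / 2 - ε) * n → (∀ i, x i ≠ 0) →
  #{i : Fin n | 0 < x i} ≤ 2 → zer x k ≤ 2 * (n - 2).choose (k - 1)

end Pool.Agent.helper77.MC
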