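import Pool.Agent.helper77.MC.Spec
import Pool.Agent.helper55.NM.Spec2
import Pool.Agent.helper31.MC.JC
import Pool.Agent.helper72.MC.SG
import Pool.Agent.helper41.MC.ST
import Pool.Agent.helper32.MC.FA
import Pool.Agent.helper79.MC.GD
import Pool.Agent.helper43.MC.BA
import Pool.Agent.helper36.MC.P2
import Pool.Agent.helper92.MC.P1
import Pool.Agent.helper99.MC.S1
import Pool.Agent.helper89.MC.S2
import Pool.Agent.helper47.MC.CR
import Pool.Agent.helper71.MC.AN
import Pool.Agent.helper27.MC.CC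

set_option autoImplicit false

/-!
# Part (C) of the middle range: at most two positive weights
-/

namespace Pool.Agent.helper77.MC

open Finset

theorem h_JC : JC_stmt := JC
theorem h_FA : FA_stmt := FA
theorem h_SG : SG_stmt := SG h_JC
theorem h_ST : ST_stmt := ST h_JC
theorem h_GD : GD_stmt := GD h_FA
theorem h_BA : BA_stmt := BA h_SG h_ST h_FA
theorem h_P2 : P2_stmt := P2 h_FA h_GD h_BA
theorem h_P1 : P1_stmt := P1 h_FA
theorem h_S1 : S1_stmt := S1
theorem h_S2 : S2_stmt := S2
theorem h_CR : CR_stmt := CR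
theorem h_AN : AN_stmt := AN h_CR

/-- Part (C). -/
theorem partC : CC_stmt := CC h_P1 h_P2 h_S1 h_S2 h_AN

/-- The interface of the assembly (helper55/NM/Spec2). -/
theorem h_PC : Pool.Agent.NM.PC_stmt := by
  classical
  intro ε hε
  obtain ⟨n0, h0⟩ := partC ε hε
  refine ⟨n0, fun n k x h1 h2 h3 h4 h5 => h0 n k x h1 h2 h3 h4 ?_⟩
  refine le_trans (le_of_eq ?_) h5
  congr 1

end Pool.Agent.helper77.MC
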